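import Pool.Agent.Q252.AH.Blk

set_option autoImplicit false

/-!
# Project AH, job BL: the density over a block and the pairs in the block
-/

namespace Pool.Agent.Q252.AH

open MeasureTheory Filter Topology Set
open Pool.Agent.Q260.AH
open Pool.Agent.Y23 (Lg one_le_Lg)
open Pool.Agent.Y749.Rig (Mp ZZ mm RR nT nT_pos Mp_integral ZZ_mono mm_nonneg mem_ZZ zs_im_pos one_lt_log)
open Pool.Agent.Q260.GM (gd gd_int gd_cont DD ra LL ev_pos ev_le ev_L QQ QQ_eq T_top r_lim pair_mean fin_le Lg_log log4_small inv_top)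

/-- the formula at one endpoint -/
lemma endp (hRH : RiemannHypothesis) {a Y ε : ℝ} (ha : 0 < a) (hY : 0 < Y) (hε : 0 < ε) : ∀ᶠ κ : ℝ in 𝓝[>] 0,
    |(∫ y in (0 : ℝ)..Y, gd κ a y) - (κ / LL κ ^ 2 * (Real.pi / 2 * QQ (a / LL κ) (Y / κ)) - Y / 4)| ≤ ε := by
  have hpi := Real.pi_pos
  obtain ⟨η, hη0, hη⟩ : ∃ η : ℝ, 0 < η ∧ η * (4 * Y) ≤ ε / 2 := by
    refine ⟨ε / 2 / (4 * Y), by positivity, ?_⟩
    rw [div_mul_cancel₀ _ (by positivity)]
  have hr := r_lim hY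
  have hr2 : Tendsto (fun κ : ℝ => |Y * (Real.log (Y / κ) / LL κ) ^ 2 / 4 - Y / 4|) (𝓝[>] 0) (𝓝 |Y * 1 ^ 2 / 4 - Y / 4|) :=
    ((((hr.pow 2).const_mul Y).div_const 4).sub_const (Y / 4)).abs
  have e0 : |Y * 1 ^ 2 / 4 - Y / 4| = 0 := by rw [one_pow, mul_one, sub_self, abs_zero]
  rw [e0] at hr2
  filter_upwards [hr2.eventually (ge_mem_nhds (show (0 : ℝ) < ε / 2 by positivity)),
    (T_top hY).eventually (pair_mean hRH (a1 := a / 2) (a2 := 2 * a) (by positivity) (by linarith) hη0),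
    hr.eventually (le_mem_nhds (show (1 / 2 : ℝ) < 1 by norm_num)),
    hr.eventually (ge_mem_nhds (show (1 : ℝ) < 2 by norm_num)), ev_pos,
    ev_L (max 1 (4 * a)), (T_top hY).eventually_ge_atTop 10] with κ k0 hp hr1 hr2 hκ hL hT
  have hL1 : 1 ≤ LL κ := (le_max_left _ _).trans hL
  have hL4 : 4 * a ≤ LL κ := (le_max_right _ _).trans hL
  have hLp : 0 < LL κ := by linarith
  set x : ℝ := a / LL κ with hx
  have hx0 : 0 < x := by positivity
  set T : ℝ := Y / κ with hTd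
  have hTp : 0 < T := by linarith
  have hlT : 1 < Real.log T := one_lt_log (by linarith)
  have hlTp : 0 < Real.log T := by linarith
  set r : ℝ := Real.log T / LL κ with hrd
  have hb : a * r ∈ Icc (a / 2) (2 * a) := by
    constructor
    · nlinarith
    · nlinarith
  have e1 : a * r = x * Real.log T := by rw [hrd, hx]; ring
  have h1 := hp (a * r) hb
  rw [e1] at h1
  have e2 : x * Real.log T / Real.log T = x := by field_simp
  rw [e2, QQ_eq hx0 hT] at h1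
  rw [gd_int hκ, ← hTd, ← hx]
  set I : ℝ := ∫ t in (0 : ℝ)..T, DD x t ^ 2 with hI
  have hYT : Y = T * κ := by rw [hTd]; field_simp
  have e3 : κ / LL κ ^ 2 * I - (κ / LL κ ^ 2 * (Real.pi / 2 * QQ x T) - Y * r ^ 2 / 4) =
      κ / LL κ ^ 2 * (I - T * Real.log T ^ 2 / 4 * (QQ x T / (nT T * Real.log T) - 1)) := by
    rw [hrd, hYT]
    unfold nT
    field_simp
    ring
  have e4 : |κ / LL κ ^ 2 * I - (κ / LL κ ^ 2 * (Real.pi / 2 * QQ x T) - Y * r ^ 2 / 4)| ≤ ε / 2 := by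
    rw [e3, abs_mul, abs_of_pos (by positivity : 0 < κ / LL κ ^ 2)]
    calc κ / LL κ ^ 2 * |I - T * Real.log T ^ 2 / 4 * (QQ x T / (nT T * Real.log T) - 1)| ≤
          κ / LL κ ^ 2 * (η * (T * Real.log T ^ 2)) := mul_le_mul_of_nonneg_left h1 (by positivity)
      _ = η * (Y * r ^ 2) := by rw [hrd, hYT]; field_simp
      _ ≤ η * (Y * 4) := by
          apply mul_le_mul_of_nonneg_left _ hη0.le
          apply mul_le_mul_of_nonneg_left _ hY.le
          nlinarith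
      _ ≤ ε / 2 := by linarith
  have e5 : κ / LL κ ^ 2 * I - (κ / LL κ ^ 2 * (Real.pi / 2 * QQ x T) - Y / 4) =
      (κ / LL κ ^ 2 * I - (κ / LL κ ^ 2 * (Real.pi / 2 * QQ x T) - Y * r ^ 2 / 4)) - (Y * r ^ 2 / 4 - Y / 4) := by ring
  rw [e5]
  refine (abs_sub _ _).trans ?_
  linarith

lemma Kc_even (x v : ℝ) : Kc x (-v) = Kc x v := by unfold Kc; rw [neg_sq]

lemma Kc_nonneg {x : ℝ} (hx : 0 ≤ x) (v : ℝ) : 0 ≤ Kc x v := by unfold Kc; positivity

lemma Kc_le {x : ℝ} (hx : 0 < x) (h1 : x ≤ 1 / 2) (v : ℝ) : Kc x v ≤ 1 / x * (1 / (1 + v ^ 2)) := by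
  unfold Kc
  rw [div_mul_div_comm, one_mul, div_le_div_iff₀ (by positivity) (by positivity)]
  have h2 : 4 * x ^ 2 ≤ 1 := by nlinarith
  nlinarith [sq_nonneg v, mul_le_mul_of_nonneg_right h2 (sq_nonneg v)]

/-- the cross pairs -/
lemma cross_small (h1 : S_CR) {a Y1 Y2 ε : ℝ} (ha : 0 < a) (hY1 : 0 ≤ Y1) (hY2 : Y1 < Y2) (hε : 0 < ε) :
    ∀ᶠ κ : ℝ in 𝓝[>] 0, κ / LL κ ^ 2 *
      ∑ s ∈ ZZ (Y1 / κ), ∑ s' ∈ ZB (Y1 / κ) (Y2 / κ), mm s * mm s' * Kc (a / LL κ) (s.im - s'.im) ≤ ε := by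
  classical
  obtain ⟨C, hC, hCR⟩ := h1
  obtain ⟨K, hK, -, hF⟩ := fin_le
  have hY2p : 0 < Y2 := by linarith
  set E : ℝ := 32 * C * K ^ 2 / a with hE
  have hE0 : 0 < E := by positivity
  filter_upwards [(r_lim hY2p).eventually (ge_mem_nhds (show (1 : ℝ) < 2 by norm_num)), ev_pos,
    ev_L (max 1 (2 * a)), (T_top hY2p).eventually_ge_atTop 10,
    inv_top.eventually (log4_small (ε := ε / E) (by positivity))] with κ hr hκ hL hT k4
  have hL1 : 1 ≤ LL κ := (le_max_left _ _).trans hL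
  have hL2 : 2 * a ≤ LL κ := (le_max_right _ _).trans hL
  have hLp : 0 < LL κ := by linarith
  set x : ℝ := a / LL κ with hx
  have hx0 : 0 < x := by positivity
  have hx1 : x ≤ 1 / 2 := by rw [hx, div_le_iff₀ hLp]; linarith
  set T2 : ℝ := Y2 / κ with hT2
  set T1 : ℝ := Y1 / κ with hT1
  have hT1n : 0 ≤ T1 := by positivity
  have hT12 : T1 ≤ T2 := div_le_div_of_nonneg_right hY2.le hκ.le
  have hlT : 1 < Real.log T2 := one_lt_log (by linarith)
  have hlr : Real.log T2 ≤ 2 * LL κ := by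
    rw [div_le_iff₀ hLp] at hr; exact hr
  have hLg := (Lg_log (T := T2) (by linarith)).1
  have hLgm : ∀ t ∈ Icc 0 T2, Lg t ≤ Lg T2 := by
    intro t ht
    unfold Lg
    apply Real.log_le_log (by positivity)
    rw [abs_of_nonneg ht.1, abs_of_nonneg (ht.1.trans ht.2)]
    linarith [ht.2]
  have e0 : ZB T1 T2 = ZZ T2 \ ZZ T1 := by
    unfold ZB
    congr
  have hc := hCR (ZZ T1) (ZB T1 T2) mm Complex.im (K * Lg T2) T2 T1 (by linarith)
    (mul_nonneg hK.le (zero_le_one.trans (one_le_Lg T2))) hT1n hT12 mm_nonneg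
    (fun s hs => by
      rw [mem_ZZ] at hs
      exact ⟨hs.2.2.2.1, hs.2.2.2.2⟩)
    (fun s hs => by
      rw [e0, Finset.mem_sdiff, mem_ZZ, mem_ZZ] at hs
      refine ⟨?_, hs.1.2.2.2.2⟩
      by_contra h
      exact hs.2 ⟨hs.1.1, hs.1.2.1, hs.1.2.2.1, hs.1.2.2.2.1, (not_le.1 h).le⟩)
    (fun t ht => (hF T1 t).trans (mul_le_mul_of_nonneg_left (hLgm t ht) hK.le))
    (fun t ht => by
      refine le_trans ?_ ((hF T2 t).trans (mul_le_mul_of_nonneg_left (hLgm t ht) hK.le))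
      rw [e0]
      exact Finset.sum_le_sum_of_subset_of_nonneg Finset.sdiff_subset fun s _ _ =>
        mul_nonneg (mm_nonneg s) (by positivity))
  have h3 : ∑ s ∈ ZZ T1, ∑ s' ∈ ZB T1 T2, mm s * mm s' * Kc x (s.im - s'.im) ≤
      1 / x * ∑ s ∈ ZZ T1, ∑ s' ∈ ZB T1 T2, mm s * mm s' * (1 / (1 + (s.im - s'.im) ^ 2)) := by
    rw [Finset.mul_sum]
    refine Finset.sum_le_sum fun s _ => ?_
    rw [Finset.mul_sum]
    refine Finset.sum_le_sum fun s' _ => ?_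
    have := mul_le_mul_of_nonneg_left (Kc_le hx0 hx1 (s.im - s'.im)) (mul_nonneg (mm_nonneg s) (mm_nonneg s'))
    linarith
  have h4 : C * ((K * Lg T2) ^ 2 * Real.log T2) ≤ C * ((K * (4 * LL κ)) ^ 2 * (2 * LL κ)) := by
    have hLg0 : 0 ≤ Lg T2 := zero_le_one.trans (one_le_Lg T2)
    have : Lg T2 ≤ 4 * LL κ := by linarith
    gcongr
  have h5 : κ * LL κ ^ 4 ≤ ε / E := by
    have h6 : Real.log (1 / κ) ^ 4 ≤ ε / E * (1 / κ) := k4
    have h7 := mul_le_mul_of_nonneg_left h6 hκ.le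
    have e7 : κ * (ε / E * (1 / κ)) = ε / E := by field_simp
    rw [e7] at h7
    exact h7
  have h8 : κ * LL κ ^ 2 ≤ κ * LL κ ^ 4 := by
    apply mul_le_mul_of_nonneg_left _ hκ.le
    have : 1 ≤ LL κ ^ 2 := one_le_pow₀ hL1
    nlinarith [sq_nonneg (LL κ)]
  calc κ / LL κ ^ 2 * ∑ s ∈ ZZ T1, ∑ s' ∈ ZB T1 T2, mm s * mm s' * Kc x (s.im - s'.im) ≤
        κ / LL κ ^ 2 * (1 / x * (C * ((K * (4 * LL κ)) ^ 2 * (2 * LL κ)))) := by
        apply mul_le_mul_of_nonneg_left _ (by positivity)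
        refine h3.trans (mul_le_mul_of_nonneg_left (hc.trans h4) (by positivity))
    _ = E * (κ * LL κ ^ 2) := by
        rw [hx, hE]; field_simp; ring
    _ ≤ E * (ε / E) := mul_le_mul_of_nonneg_left (h8.trans h5) hE0.le
    _ = ε := by field_simp

theorem t_BL (h1 : S_CR) : S_BL := by
  intro hRH a Y1 Y2 δ ha hY1 h12 hδ
  have hpi := Real.pi_pos
  have hY2 : 0 < Y2 := by linarith
  have hend1 : ∀ᶠ κ : ℝ in 𝓝[>] 0,
      |(∫ y in (0 : ℝ)..Y1, gd κ a y) - (κ / LL κ ^ 2 * (Real.pi / 2 * QQ (a / LL κ) (Y1 / κ)) - Y1 / 4)| ≤ δ / 3 := by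
    rcases hY1.lt_or_eq with h | h
    · exact endp hRH ha h (by positivity)
    · refine Eventually.of_forall fun κ => ?_
      rw [← h, intervalIntegral.integral_same, zero_div, QQ_PK, ZZ_zero]
      unfold PK
      simp
      positivity
  filter_upwards [hend1, endp hRH ha hY2 (ε := δ / 3) (by positivity),
    cross_small h1 ha hY1 h12 (ε := δ / 3 / Real.pi) (by positivity), ev_pos, ev_L (max 1 (4 * a))]
    with κ k1 k2 k3 hκ hL
  have hL1 : 1 ≤ LL κ := (le_max_left _ _).trans hL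
  have hL4 : 4 * a ≤ LL κ := (le_max_right _ _).trans hL
  have hLp : 0 < LL κ := by linarith
  have hx0 : 0 < a / LL κ := by positivity
  have hx1 : a / LL κ ≤ 1 / 4 := by rw [div_le_iff₀ hLp]; linarith
  have hgc := gd_cont hRH (κ := κ) (a := a) hx0 hx1
  have e := intervalIntegral.integral_interval_sub_left (hgc.intervalIntegrable (μ := volume) 0 Y2)
    (hgc.intervalIntegrable 0 Y1)
  have hTT : Y1 / κ ≤ Y2 / κ := div_le_div_of_nonneg_right h12.le hκ.le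
  have hs := PK_split (Kc (a / LL κ)) (Kc_even _) hTT
  have hn := cross_nonneg (K := Kc (a / LL κ)) (Kc_nonneg hx0.le) (Y1 / κ) (Y2 / κ)
  rw [QQ_PK] at k1 k2
  rw [hs] at k2
  set X : ℝ := ∑ s ∈ ZZ (Y1 / κ), ∑ s' ∈ ZB (Y1 / κ) (Y2 / κ), mm s * mm s' * Kc (a / LL κ) (s.im - s'.im) with hX
  have hc0 : 0 ≤ κ / LL κ ^ 2 := by positivity
  have k4 : κ / LL κ ^ 2 * (Real.pi / 2 * (2 * X)) ≤ δ / 3 := by
    have e1 : κ / LL κ ^ 2 * (Real.pi / 2 * (2 * X)) = Real.pi * (κ / LL κ ^ 2 * X) := by ring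
    rw [e1]
    have := mul_le_mul_of_nonneg_left k3 hpi.le
    have e2 : Real.pi * (δ / 3 / Real.pi) = δ / 3 := by field_simp
    rwa [e2] at this
  have k5 : 0 ≤ κ / LL κ ^ 2 * (Real.pi / 2 * (2 * X)) := by positivity
  rw [← e]
  rw [abs_le] at k1 k2 ⊢
  constructor <;> nlinarith [k1.1, k1.2, k2.1, k2.2, k4, k5]

end Pool.Agent.Q252.AH
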