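import Pool.Agent.Q260.AH.Db

set_option autoImplicit false

/-!
# Project AH: sums over pairs in a block
-/

namespace Pool.Agent.Q252.AH

open MeasureTheory Filter Topology Set
open Pool.Agent.Q260.AH
open Pool.Agent.Y749.Rig (ZZ mm nT ZZ_mono mm_nonneg mem_ZZ zs_im_pos)
open Pool.Agent.Q260.GM (Ns QQ)

lemma ZZ_zero : ZZ 0 = ∅ := by
  rw [Finset.eq_empty_iff_forall_notMem]
  intro s hs
  rw [mem_ZZ] at hs
  have h1 := zs_im_pos hs
  have h2 := hs.2.2.2.2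
  linarith

lemma QQ_PK (x T : ℝ) : QQ x T = PK (ZZ T) mm Complex.im (Kc x) := rfl

/-- decomposition of the sum over the pairs -/
lemma PK_split (K : ℝ → ℝ) (hK : ∀ v, K (-v) = K v) {T1 T2 : ℝ} (h : T1 ≤ T2) :
    PK (ZZ T2) mm Complex.im K = PK (ZZ T1) mm Complex.im K + PB K T1 T2 +
      2 * ∑ s ∈ ZZ T1, ∑ s' ∈ ZB T1 T2, mm s * mm s' * K (s.im - s'.im) := by
  classical
  have hsub := ZZ_mono h
  have e0 : ZB T1 T2 = ZZ T2 \ ZZ T1 := by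
    unfold ZB
    congr
  have e1 : ∀ f : ℂ → ℝ, ∑ s ∈ ZZ T2, f s = (∑ s ∈ ZB T1 T2, f s) + ∑ s ∈ ZZ T1, f s := by
    intro f
    rw [e0, Finset.sum_sdiff hsub]
  have e2 : ∑ s ∈ ZB T1 T2, ∑ s' ∈ ZZ T1, mm s * mm s' * K (s.im - s'.im) =
      ∑ s ∈ ZZ T1, ∑ s' ∈ ZB T1 T2, mm s * mm s' * K (s.im - s'.im) := by
    rw [Finset.sum_comm]
    refine Finset.sum_congr rfl fun s _ => Finset.sum_congr rfl fun s' _ => ?_
    have : s'.im - s.im = -(s.im - s'.im) := by ring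
    rw [this, hK]; ring
  unfold PB PK
  rw [e1]
  have e3 : ∀ s : ℂ, ∑ s' ∈ ZZ T2, mm s * mm s' * K (s.im - s'.im) =
      (∑ s' ∈ ZB T1 T2, mm s * mm s' * K (s.im - s'.im)) + ∑ s' ∈ ZZ T1, mm s * mm s' * K (s.im - s'.im) :=
    fun s => e1 _
  simp_rw [e3]
  rw [Finset.sum_add_distrib, Finset.sum_add_distrib, e2]
  ring

lemma cross_nonneg {K : ℝ → ℝ} (hK : ∀ v, 0 ≤ K v) (T1 T2 : ℝ) :
    0 ≤ ∑ s ∈ ZZ T1, ∑ s' ∈ ZB T1 T2, mm s * mm s' * K (s.im - s'.im) :=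
  Finset.sum_nonneg fun s _ => Finset.sum_nonneg fun s' _ =>
    mul_nonneg (mul_nonneg (mm_nonneg _) (mm_nonneg _)) (hK _)

lemma mm_le_sq (s : ℂ) : mm s ≤ mm s * mm s := by
  unfold mm
  rcases Nat.eq_zero_or_pos (H370.mult riemannZeta s) with h5 | h5
  · rw [h5]; simp
  · have : (1 : ℝ) ≤ (H370.mult riemannZeta s : ℝ) := by exact_mod_cast h5
    nlinarith

/-- the diagonal -/
lemma PK_diag {K : ℝ → ℝ} (hK : ∀ v, 0 ≤ K v) (T : ℝ) : K 0 * Ns T ≤ PK (ZZ T) mm Complex.im K := by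
  unfold Ns PK
  rw [Finset.mul_sum]
  refine Finset.sum_le_sum fun s hs => ?_
  refine le_trans ?_ (Finset.single_le_sum (f := fun s' => mm s * mm s' * K (s.im - s'.im))
    (fun s' _ => mul_nonneg (mul_nonneg (mm_nonneg _) (mm_nonneg _)) (hK _)) hs)
  show K 0 * mm s ≤ mm s * mm s * K (s.im - s.im)
  rw [sub_self, mul_comm]
  exact mul_le_mul_of_nonneg_right (mm_le_sq s) (hK 0)

end Pool.Agent.Q252.AH
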