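import Pool.Agent.Q252.AH.Blk

set_option autoImplicit false

/-!
# Project AH, job SX: the excess of a block is small under the alternative hypothesis
-/

namespace Pool.Agent.Q252.AH

open MeasureTheory Filter Topology Set
open Pool.Agent.Q260.AH
open Pool.Agent.Y23 (Lg one_le_Lg)
open Pool.Agent.Y749.Rig (Mp ZZ mm nT nT_pos ZZ_mono mm_nonneg mem_ZZ one_lt_log fl tr ww fl_tr fl_tr_zero ww_pos)
open Pool.Agent.Q260.GM (ra LL ev_pos ev_L Ns Ns_lim QQ QQ_eq T_top r_lim fin_le Lg_log ra_bdd)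
open Pool.Agent.Y763.AH (PT gw gw_symm gw_diag sum_idx2 full_sum NZ_lim PT_nonneg)

lemma Kt_nonneg {R L : ℝ} (hL : 0 ≤ L) (v : ℝ) : 0 ≤ Kt R L v := by unfold Kt; positivity

lemma Kt_even (R L v : ℝ) : Kt R L (-v) = Kt R L v := by
  unfold Kt
  rw [mul_neg, neg_div, Real.sinc_neg]

lemma Kt_zero (R L : ℝ) : Kt R L 0 = L * R ^ 2 := by
  unfold Kt
  rw [mul_zero, zero_div, Real.sinc_zero]
  ring

/-- the kernel and the transform of the tent -/
lemma Kt_fl {R L : ℝ} (hR : 0 < R) (hL : 0 < L) (v : ℝ) :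
    Kt R L v = L * R ^ 2 * fl (tr R) (v * L / (2 * Real.pi)) := by
  have hpi := Real.pi_pos
  rcases eq_or_ne v 0 with h | h
  · rw [h, Kt_zero, zero_mul, zero_div, fl_tr_zero hR]; ring
  · have h1 : v * L / (2 * Real.pi) ≠ 0 := by positivity
    rw [fl_tr hR h1]
    unfold Kt
    have h2 : R * L * v / 2 ≠ 0 := by positivity
    rw [Real.sinc_of_ne_zero h2]
    have e : Real.pi * R * (v * L / (2 * Real.pi)) = R * L * v / 2 := by field_simp
    rw [e]

/-- the weight costs little -/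
lemma Kt_ww {R L : ℝ} (hR : 0 < R) (hL : 0 < L) (v : ℝ) :
    Kt R L v ≤ Kt R L v * ww v + 4 / L * (1 / (1 + v ^ 2)) := by
  have h1 : 0 ≤ Real.sinc (R * L * v / 2) ^ 2 := sq_nonneg _
  have h2 : Real.sinc (R * L * v / 2) ^ 2 * (R * L * v / 2) ^ 2 ≤ 1 := by
    rcases eq_or_ne (R * L * v / 2) 0 with h | h
    · rw [h]; norm_num
    · rw [Real.sinc_of_ne_zero h, div_pow, div_mul_cancel₀ _ (by positivity)]
      exact Real.sin_sq_le_one _
  have h3 : 1 - ww v = v ^ 2 / (4 + v ^ 2) := by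
    unfold ww
    field_simp
    ring
  have h4 : Kt R L v - Kt R L v * ww v = Kt R L v * (1 - ww v) := by ring
  have h5 : Kt R L v * (1 - ww v) = 4 / L * (Real.sinc (R * L * v / 2) ^ 2 * (R * L * v / 2) ^ 2) * (1 / (4 + v ^ 2)) := by
    rw [h3]
    unfold Kt
    field_simp
    norm_num
    ring
  have h6 : 1 / (4 + v ^ 2) ≤ 1 / (1 + v ^ 2) := one_div_le_one_div_of_le (by positivity) (by linarith)
  have h7 : 4 / L * (Real.sinc (R * L * v / 2) ^ 2 * (R * L * v / 2) ^ 2) * (1 / (4 + v ^ 2)) ≤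
      4 / L * 1 * (1 / (1 + v ^ 2)) := by gcongr
  linarith

/-- the sum over all the pairs up to `T` at the scale `log T` -/
lemma PK_own (hRH : RiemannHypothesis) {R K T : ℝ} (hR : 0 < R) (hK : 0 < K) (hT : 10 ≤ T)
    (hF : ∀ T t : ℝ, ∑ s ∈ ZZ T, mm s * (1 / (1 + (s.im - t) ^ 2)) ≤ K * Lg t) :
    PK (ZZ T) mm Complex.im (Kt R (Real.log T)) ≤
      Real.log T * R ^ 2 * ((SG.NZ T : ℝ) + 2 * PT R T) + 8 * K * Ns T := by
  have hl : 1 < Real.log T := one_lt_log (by linarith)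
  have hl0 : 0 < Real.log T := by linarith
  have hLg := (Lg_log (T := T) (by linarith)).1
  have e1 : ∑ s ∈ ZZ T, ∑ s' ∈ ZZ T, mm s * mm s' * gw R T s.im s'.im = (SG.NZ T : ℝ) + 2 * PT R T := by
    rw [sum_idx2 hRH T (fun x x' => gw R T x x'),
      full_sum (fun n n' => gw R T (SG.ord n) (SG.ord n')) (fun n n' => gw_symm _ _ _ _)]
    congr 1
    rw [Finset.sum_congr rfl fun n _ => gw_diag hR T (SG.ord n)]
    simp
  have h2 : ∀ s s' : ℂ, mm s * mm s' * Kt R (Real.log T) (s.im - s'.im) ≤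
      Real.log T * R ^ 2 * (mm s * mm s' * gw R T s.im s'.im) +
      4 / Real.log T * (mm s * (mm s' * (1 / (1 + (s'.im - s.im) ^ 2)))) := by
    intro s s'
    have h3 := mul_le_mul_of_nonneg_left (Kt_ww hR hl0 (s.im - s'.im)) (mul_nonneg (mm_nonneg s) (mm_nonneg s'))
    refine h3.trans (le_of_eq ?_)
    have e2 : Kt R (Real.log T) (s.im - s'.im) * ww (s.im - s'.im) =
        Real.log T * R ^ 2 * gw R T s.im s'.im := by
      rw [Kt_fl hR hl0]
      unfold gw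
      ring
    have e3 : (s'.im - s.im) ^ 2 = (s.im - s'.im) ^ 2 := by ring
    rw [e2, e3]; ring
  have h4 : PK (ZZ T) mm Complex.im (Kt R (Real.log T)) ≤
      ∑ s ∈ ZZ T, ∑ s' ∈ ZZ T, (Real.log T * R ^ 2 * (mm s * mm s' * gw R T s.im s'.im) +
      4 / Real.log T * (mm s * (mm s' * (1 / (1 + (s'.im - s.im) ^ 2))))) := by
    unfold PK
    exact Finset.sum_le_sum fun s _ => Finset.sum_le_sum fun s' _ => h2 s s'
  refine h4.trans ?_
  have e5 : ∑ s ∈ ZZ T, ∑ s' ∈ ZZ T, (Real.log T * R ^ 2 * (mm s * mm s' * gw R T s.im s'.im) +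
      4 / Real.log T * (mm s * (mm s' * (1 / (1 + (s'.im - s.im) ^ 2))))) =
      Real.log T * R ^ 2 * ((SG.NZ T : ℝ) + 2 * PT R T) +
      4 / Real.log T * ∑ s ∈ ZZ T, mm s * ∑ s' ∈ ZZ T, mm s' * (1 / (1 + (s'.im - s.im) ^ 2)) := by
    rw [← e1, Finset.mul_sum, Finset.mul_sum, ← Finset.sum_add_distrib]
    refine Finset.sum_congr rfl fun s _ => ?_
    rw [Finset.sum_add_distrib, Finset.mul_sum, Finset.mul_sum, Finset.mul_sum]
  rw [e5]
  have h6 : ∑ s ∈ ZZ T, mm s * ∑ s' ∈ ZZ T, mm s' * (1 / (1 + (s'.im - s.im) ^ 2)) ≤ 2 * K * Real.log T * Ns T := by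
    unfold Ns
    rw [Finset.mul_sum]
    refine Finset.sum_le_sum fun s hs => ?_
    rw [mem_ZZ] at hs
    have h7 : Lg s.im ≤ Lg T := by
      unfold Lg
      apply Real.log_le_log (by positivity)
      rw [abs_of_nonneg hs.2.2.2.1, abs_of_nonneg (by linarith : (0 : ℝ) ≤ T)]
      linarith [hs.2.2.2.2]
    have h8 : ∑ s' ∈ ZZ T, mm s' * (1 / (1 + (s'.im - s.im) ^ 2)) ≤ K * (2 * Real.log T) :=
      (hF T s.im).trans (mul_le_mul_of_nonneg_left (h7.trans hLg) hK.le)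
    have h9 := mul_le_mul_of_nonneg_left h8 (mm_nonneg s)
    linarith
  have h10 := mul_le_mul_of_nonneg_left h6 (show 0 ≤ 4 / Real.log T by positivity)
  have e6 : 4 / Real.log T * (2 * K * Real.log T * Ns T) = 8 * K * Ns T := by field_simp; ring
  rw [e6] at h10
  linarith

lemma Ns_zero : Ns 0 = 0 := by
  unfold Ns
  rw [ZZ_zero, Finset.sum_empty]

/-- the number of zeros, normalised -/
lemma Ns_norm {Y : ℝ} (hY : 0 ≤ Y) :
    Tendsto (fun κ : ℝ => κ / LL κ * Ns (Y / κ)) (𝓝[>] 0) (𝓝 (Y / (2 * Real.pi))) := by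
  rcases hY.lt_or_eq with h | h
  · have h1 := ((Ns_lim.comp (T_top h)).mul (r_lim h)).const_mul Y
    have e : Y * (1 / (2 * Real.pi) * 1) = Y / (2 * Real.pi) := by ring
    rw [e] at h1
    refine h1.congr' ?_
    filter_upwards [ev_pos, ev_L 1, (T_top h).eventually_ge_atTop 10] with κ hκ hL hT
    have hlT : 1 < Real.log (Y / κ) := one_lt_log (by linarith)
    have hl0 : Real.log (Y / κ) ≠ 0 := by linarith
    have hL0 : LL κ ≠ 0 := by linarith
    simp only [Function.comp]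
    field_simp
  · rw [← h, zero_div]
    refine tendsto_const_nhds.congr fun κ => ?_
    rw [zero_div, Ns_zero, mul_zero]

theorem t_SX (h1 : S_SC) : S_SX := by
  intro hRH R hR hPT p q δ hp hpq hδ
  have hpi := Real.pi_pos
  have hq : 0 < q := by linarith
  obtain ⟨C, hC, hSC⟩ := h1 R hR
  obtain ⟨K, hK, -, hF⟩ := fin_le
  obtain ⟨Rb, hRb, hra⟩ := ra_bdd (a1 := 1 / 2) (a2 := 2) (by norm_num)
  -- the limits
  set r : ℝ → ℝ := fun κ => Real.log (q / κ) / LL κ with hr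
  have hrl : Tendsto r (𝓝[>] 0) (𝓝 1) := r_lim hq
  set z : ℝ → ℝ := fun κ => (SG.NZ (q / κ) : ℝ) / nT (q / κ) with hz
  have hzl : Tendsto z (𝓝[>] 0) (𝓝 1) := NZ_lim.comp (T_top hq)
  set w : ℝ → ℝ := fun κ => PT R (q / κ) / nT (q / κ) with hw
  have hwl : Tendsto w (𝓝[>] 0) (𝓝 0) := hPT.comp (T_top hq)
  have hinvL : Tendsto (fun κ : ℝ => 1 / LL κ) (𝓝[>] 0) (𝓝 0) :=
    (Pool.Agent.Q260.GM.LL_top.const_div_atTop 1)
  have hlim : Tendsto (fun κ => R ^ 2 * q / 4 * (r κ ^ 2 * (z κ + 2 * w κ)) +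
      4 * Real.pi * K * (κ / LL κ * Ns (q / κ)) * (1 / LL κ) +
      C * Rb * q / 4 * (|r κ - 1| * r κ ^ 2) - Real.pi / 2 * R ^ 2 * (κ / LL κ * Ns (p / κ)) -
      R ^ 2 * (q - p) / 4) (𝓝[>] 0)
      (𝓝 (R ^ 2 * q / 4 * (1 ^ 2 * (1 + 2 * 0)) + 4 * Real.pi * K * (q / (2 * Real.pi)) * 0 +
      C * Rb * q / 4 * (|(1 : ℝ) - 1| * 1 ^ 2) - Real.pi / 2 * R ^ 2 * (p / (2 * Real.pi)) -
      R ^ 2 * (q - p) / 4)) := by
    refine Tendsto.sub (Tendsto.sub (Tendsto.add (Tendsto.add ?_ ?_) ?_) ?_) tendsto_const_nhds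
    · exact ((hrl.pow 2).mul (hzl.add (hwl.const_mul 2))).const_mul _
    · exact ((Ns_norm hq.le).const_mul _).mul hinvL
    · exact (((hrl.sub_const 1).abs).mul (hrl.pow 2)).const_mul _
    · exact (Ns_norm hp).const_mul _
  have hval : R ^ 2 * q / 4 * (1 ^ 2 * (1 + 2 * 0)) + 4 * Real.pi * K * (q / (2 * Real.pi)) * 0 +
      C * Rb * q / 4 * (|(1 : ℝ) - 1| * 1 ^ 2) - Real.pi / 2 * R ^ 2 * (p / (2 * Real.pi)) -
      R ^ 2 * (q - p) / 4 = 0 := by
    rw [sub_self, abs_zero]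
    field_simp
    ring
  rw [hval] at hlim
  filter_upwards [hlim.eventually (ge_mem_nhds hδ), (T_top hq).eventually hra,
    hrl.eventually (le_mem_nhds (show (1 / 2 : ℝ) < 1 by norm_num)),
    hrl.eventually (ge_mem_nhds (show (1 : ℝ) < 2 by norm_num)), ev_pos, ev_L 1,
    (T_top hq).eventually_ge_atTop 10] with κ k0 k1 hr1 hr2 hκ hL hT
  have hLp : 0 < LL κ := by linarith
  set T : ℝ := q / κ with hTd
  have hlT : 1 < Real.log T := one_lt_log (by linarith)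
  have hl0 : 0 < Real.log T := by linarith
  have hn := nT_pos hT
  have hrκ : r κ = Real.log T / LL κ := rfl
  have hb1 : LL κ / 2 ≤ Real.log T := by
    rw [hrκ, le_div_iff₀ hLp] at hr1; linarith
  have hb2 : Real.log T ≤ 2 * LL κ := by
    rw [hrκ, div_le_iff₀ hLp] at hr2; exact hr2
  have hTT : p / κ ≤ T := div_le_div_of_nonneg_right hpq.le hκ.le
  -- the pieces
  have c1 := PK_split (Kt R (LL κ)) (Kt_even R (LL κ)) hTT
  have c2 := cross_nonneg (K := Kt R (LL κ)) (Kt_nonneg hLp.le) (p / κ) T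
  have c3 := PK_diag (K := Kt R (LL κ)) (Kt_nonneg hLp.le) (p / κ)
  rw [Kt_zero] at c3
  have c4 := (abs_le.1 (hSC (ZZ T) mm Complex.im (LL κ) (Real.log T) hLp hb1 hb2)).2
  have c5 := PK_own hRH hR hK hT hF
  have c6 : PK (ZZ T) mm Complex.im (Kc (1 / LL κ)) ≤ nT T * Real.log T * Rb := by
    have h2 := QQ_eq (x := 1 / LL κ) (T := T) (by positivity) hT
    have h3 := (k1 (1 / LL κ * Real.log T) ⟨by
      rw [one_div_mul_eq_div]; exact hr1, by rw [one_div_mul_eq_div]; exact hr2⟩).2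
    rw [h2, QQ_PK, div_le_iff₀ (by positivity)] at h3
    linarith
  have c7 : PB (Kt R (LL κ)) (p / κ) T ≤ Real.log T * R ^ 2 * ((SG.NZ T : ℝ) + 2 * PT R T) + 8 * K * Ns T +
      C * |Real.log T / LL κ - 1| * (nT T * Real.log T * Rb) - LL κ * R ^ 2 * Ns (p / κ) := by
    have h2 := mul_le_mul_of_nonneg_left c6 (show 0 ≤ C * |Real.log T / LL κ - 1| by positivity)
    linarith
  have c8 := mul_le_mul_of_nonneg_left c7 (show 0 ≤ κ / LL κ ^ 2 * (Real.pi / 2) by positivity)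
  unfold EX
  refine le_trans (le_of_eq ?_ : _ ≤ κ / LL κ ^ 2 * (Real.pi / 2) * PB (Kt R (LL κ)) (p / κ) T - R ^ 2 * (q - p) / 4) ?_
  · ring
  refine le_trans (sub_le_sub_right c8 _) (le_trans (le_of_eq ?_) k0)
  have hqT : q = T * κ := by rw [hTd]; field_simp
  have hnT : nT T = T * Real.log T / (2 * Real.pi) := rfl
  have ez : (SG.NZ T : ℝ) = nT T * z κ := by
    show (SG.NZ T : ℝ) = nT T * ((SG.NZ T : ℝ) / nT T)
    field_simp
  have ew : PT R T = nT T * w κ := by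
    show PT R T = nT T * (PT R T / nT T)
    field_simp
  rw [ez, ew, ← hrκ, hnT]
  have el : Real.log T = r κ * LL κ := by rw [hrκ]; field_simp
  rw [el]
  have hLne : LL κ ≠ 0 := hLp.ne'
  have e1 : R ^ 2 * q / 4 * (r κ ^ 2 * (z κ + 2 * w κ)) = R ^ 2 * (T * κ) / 4 * (r κ ^ 2 * (z κ + 2 * w κ)) := by
    rw [← hqT]
  have e2 : C * Rb * q / 4 * (|r κ - 1| * r κ ^ 2) = C * Rb * (T * κ) / 4 * (|r κ - 1| * r κ ^ 2) := by
    rw [← hqT]
  rw [e1, e2]
  have hTe : ∀ x : ℝ, x = x := fun _ => rfl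
  generalize z κ = Z at *
  generalize w κ = W at *
  generalize |r κ - 1| = V at *
  generalize Ns T = N1 at *
  generalize Ns (p / κ) = N2 at *
  field_simp
  ring

end Pool.Agent.Q252.AH
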