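import Pool.Agent.Q260.AH.Db

set_option autoImplicit false

/-!
# Project AH, job TK: the functional of the theorem and the side of the primes
-/

namespace Pool.Agent.Q252.AH

open MeasureTheory Filter Topology Set
open Pool.Agent.Q260.AH
open Pool.Agent.Q260.GM (gd LL kk Dl ph L2psi SS SS_nonneg ev_pos ev_L Dl_sq_int SS_bdd kT kT_pos exp_kT exp_change
  LL_kT kT_tendsto norm_lim Lg_log)
open Pool.Agent.Q213.GM (Dl_meas Dl_sq_ii)

/-- the functional as an integral over `u` -/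
lemma WT_eq {R T : ℝ} (hR : 0 < R) (hT : 1 < T) :
    WT R T = T / Real.log T ^ 2 * ∫ u in Ioi (0 : ℝ), max 0 (R - u / Real.log T) * Dl (kT T) u ^ 2 := by
  have hTp : 0 < T := by linarith
  have hlog : 0 < Real.log T := Real.log_pos hT
  have hA : 0 ≤ Real.log T * R := by positivity
  have h1 : ∫ x in (1 : ℝ)..(T ^ R),
      (R - Real.log x / Real.log T) * ((Chebyshev.psi (x + x / T) - Chebyshev.psi x - x / T) ^ 2 / x ^ 2) =
      ∫ u in (0 : ℝ)..(Real.log T * R), max 0 (R - u / Real.log T) * Dl (kT T) u ^ 2 := by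
    rw [Real.rpow_def_of_pos hTp]
    have h2 := exp_change (fun x => (R - Real.log x / Real.log T) *
      ((Chebyshev.psi (x + x / T) - Chebyshev.psi x - x / T) ^ 2 / x ^ 2)) hA
    rw [Real.exp_zero] at h2
    rw [h2]
    refine intervalIntegral.integral_congr fun u hu => ?_
    rw [uIcc_of_le hA] at hu
    show Real.exp u * ((R - Real.log (Real.exp u) / Real.log T) *
      ((Chebyshev.psi (Real.exp u + Real.exp u / T) - Chebyshev.psi (Real.exp u) -
      Real.exp u / T) ^ 2 / Real.exp u ^ 2)) = max 0 (R - u / Real.log T) * Dl (kT T) u ^ 2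
    have e0 : 0 ≤ R - u / Real.log T := by
      rw [sub_nonneg, div_le_iff₀ hlog, mul_comm]; exact hu.2
    have e1 : Real.exp (u + kT T) = Real.exp u + Real.exp u / T := by
      rw [Real.exp_add, exp_kT hTp]; ring
    rw [max_eq_right e0, Real.log_exp]
    unfold Dl ph
    have e2 : Real.exp (-(u / 2)) ^ 2 = (Real.exp u)⁻¹ := by
      rw [← Real.exp_nat_mul, ← Real.exp_neg]; congr 1; push_cast; ring
    rw [e1, mul_pow, e2]
    have hne := (Real.exp_pos u).ne'
    field_simp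
    ring
  unfold WT
  rw [h1]
  congr 1
  rw [intervalIntegral.integral_of_le hA]
  refine (setIntegral_eq_of_subset_of_forall_sdiff_eq_zero measurableSet_Ioi Ioc_subset_Ioi_self ?_).symm
  intro u hu
  have h3 : Real.log T * R < u := by
    by_contra h
    exact hu.2 ⟨hu.1, not_lt.1 h⟩
  have e0 : R - u / Real.log T ≤ 0 := by
    rw [sub_nonpos, le_div_iff₀ hlog, mul_comm]; exact h3.le
  rw [max_eq_left e0, zero_mul]

/-- two scales -/
lemma tents {R l L u : ℝ} (hR : 0 < R) (hl : 0 < l) (hlL : l ≤ L) (hu : 0 ≤ u) :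
    0 ≤ max 0 (R - u / L) - max 0 (R - u / l) ∧
    max 0 (R - u / L) - max 0 (R - u / l) ≤ R * Real.exp (2 * R) * (L / l - 1) * Real.exp (-(2 * (1 / L) * u)) := by
  have hL : 0 < L := by linarith
  have h1 : u / L ≤ u / l := div_le_div_of_nonneg_left hu hl hlL
  have h2 : 0 ≤ L / l - 1 := by rw [sub_nonneg, le_div_iff₀ hl]; linarith
  refine ⟨?_, ?_⟩
  · rw [sub_nonneg]
    exact max_le_max_left _ (by linarith)
  rcases le_total (R * L) u with h | h
  · have h3 : R - u / L ≤ 0 := by rw [sub_nonpos, le_div_iff₀ hL]; exact h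
    rw [max_eq_left h3, max_eq_left (by linarith)]
    have : 0 ≤ R * Real.exp (2 * R) * (L / l - 1) * Real.exp (-(2 * (1 / L) * u)) := by positivity
    linarith
  · have h3 : u / L ≤ R := by rw [div_le_iff₀ hL]; exact h
    rw [max_eq_right (by linarith : 0 ≤ R - u / L)]
    have h4 : R - u / l ≤ max 0 (R - u / l) := le_max_right _ _
    have h5 : u / l - u / L = u / L * (L / l - 1) := by field_simp
    have h6 : u / L * (L / l - 1) ≤ R * (L / l - 1) := mul_le_mul_of_nonneg_right h3 h2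
    have h7 : 1 ≤ Real.exp (2 * R) * Real.exp (-(2 * (1 / L) * u)) := by
      rw [← Real.exp_add]
      apply Real.one_le_exp
      have : 2 * (1 / L) * u = 2 * (u / L) := by ring
      rw [this]; linarith
    have h8 : 0 ≤ R * (L / l - 1) := mul_nonneg hR.le h2
    have h9 := mul_le_mul_of_nonneg_left h7 h8
    calc R - u / L - max 0 (R - u / l) ≤ R * (L / l - 1) * 1 := by linarith
      _ ≤ R * (L / l - 1) * (Real.exp (2 * R) * Real.exp (-(2 * (1 / L) * u))) := h9
      _ = _ := by ring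

/-- the tent against the exponential -/
lemma tent_le {R L u : ℝ} (hR : 0 < R) (hL : 0 < L) (hu : 0 ≤ u) :
    max 0 (R - u / L) ≤ R * Real.exp (2 * R) * Real.exp (-(2 * (1 / L) * u)) := by
  rcases le_total (R * L) u with h | h
  · have h3 : R - u / L ≤ 0 := by rw [sub_nonpos, le_div_iff₀ hL]; exact h
    rw [max_eq_left h3]
    positivity
  · have h3 : u / L ≤ R := by rw [div_le_iff₀ hL]; exact h
    have h0 : 0 ≤ u / L := by positivity
    rw [max_eq_right (by linarith : 0 ≤ R - u / L)]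
    have h7 : 1 ≤ Real.exp (2 * R) * Real.exp (-(2 * (1 / L) * u)) := by
      rw [← Real.exp_add]
      apply Real.one_le_exp
      have : 2 * (1 / L) * u = 2 * (u / L) := by ring
      rw [this]; linarith
    have h9 := mul_le_mul_of_nonneg_left h7 hR.le
    calc R - u / L ≤ R * 1 := by linarith
      _ ≤ R * (Real.exp (2 * R) * Real.exp (-(2 * (1 / L) * u))) := h9
      _ = _ := by ring

lemma tent_int (hL2 : L2psi) {R l κ : ℝ} (hR : 0 < R) (hκ : 0 < κ) (hl : 0 < l) :
    IntegrableOn (fun u => max 0 (R - u / l) * Dl κ u ^ 2) (Ioi 0) := by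
  have h1 : IntegrableOn (fun u => Dl κ u ^ 2 * Real.exp (-(2 * (1 / l) * u))) (Ioi 0) :=
    Dl_sq_int hL2 hκ (by positivity)
  refine (h1.const_mul (R * Real.exp (2 * R))).mono'
    ((by fun_prop : Measurable fun u : ℝ => max 0 (R - u / l)).mul ((Dl_meas κ).pow_const 2)).aestronglyMeasurable ?_
  refine ae_restrict_of_forall_mem measurableSet_Ioi fun u hu => ?_
  have hu0 : 0 < u := hu
  rw [Real.norm_eq_abs, abs_of_nonneg (mul_nonneg (le_max_left _ _) (sq_nonneg _))]
  have := mul_le_mul_of_nonneg_right (tent_le hR hl hu0.le) (sq_nonneg (Dl κ u))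
  refine this.trans (le_of_eq ?_)
  ring

/-- the two scales for the integrals -/
lemma two_scales (hL2 : L2psi) {R l κ : ℝ} (hR : 0 < R) (hκ : 0 < κ) (hl : 0 < l) (hlL : l ≤ LL κ) :
    0 ≤ WV R κ - ∫ u in Ioi (0 : ℝ), max 0 (R - u / l) * Dl κ u ^ 2 ∧
    WV R κ - (∫ u in Ioi (0 : ℝ), max 0 (R - u / l) * Dl κ u ^ 2) ≤
      R * Real.exp (2 * R) * (LL κ / l - 1) * SS κ (1 / LL κ) ∧
    0 ≤ WV R κ ∧ WV R κ ≤ R * Real.exp (2 * R) * SS κ (1 / LL κ) := by
  have hL : 0 < LL κ := by linarith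
  have h1 : IntegrableOn (fun u => Dl κ u ^ 2 * Real.exp (-(2 * (1 / LL κ) * u))) (Ioi 0) :=
    Dl_sq_int hL2 hκ (by positivity)
  have i1 := tent_int hL2 hR hκ hL
  have i2 := tent_int hL2 hR hκ hl
  have e : WV R κ - (∫ u in Ioi (0 : ℝ), max 0 (R - u / l) * Dl κ u ^ 2) =
      ∫ u in Ioi (0 : ℝ), (max 0 (R - u / LL κ) * Dl κ u ^ 2 - max 0 (R - u / l) * Dl κ u ^ 2) := by
    rw [integral_sub i1 i2]
    rfl
  rw [e]
  refine ⟨?_, ?_, ?_, ?_⟩
  · refine setIntegral_nonneg measurableSet_Ioi fun u hu => ?_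
    have hu0 : 0 < u := hu
    have := mul_nonneg (tents hR hl hlL hu0.le).1 (sq_nonneg (Dl κ u))
    linarith
  · have h2 : ∫ u in Ioi (0 : ℝ), (max 0 (R - u / LL κ) * Dl κ u ^ 2 - max 0 (R - u / l) * Dl κ u ^ 2) ≤
        ∫ u in Ioi (0 : ℝ), R * Real.exp (2 * R) * (LL κ / l - 1) * (Dl κ u ^ 2 * Real.exp (-(2 * (1 / LL κ) * u))) := by
      refine setIntegral_mono_on (i1.sub i2) (h1.const_mul _) measurableSet_Ioi fun u hu => ?_
      have hu0 : 0 < u := hu
      have := mul_le_mul_of_nonneg_right (tents hR hl hlL hu0.le).2 (sq_nonneg (Dl κ u))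
      linarith
    refine h2.trans (le_of_eq ?_)
    rw [integral_const_mul]
    rfl
  · exact setIntegral_nonneg measurableSet_Ioi fun u _ => mul_nonneg (le_max_left _ _) (sq_nonneg _)
  · have h2 : WV R κ ≤ ∫ u in Ioi (0 : ℝ), R * Real.exp (2 * R) * (Dl κ u ^ 2 * Real.exp (-(2 * (1 / LL κ) * u))) := by
      refine setIntegral_mono_on i1 (h1.const_mul _) measurableSet_Ioi fun u hu => ?_
      have hu0 : 0 < u := hu
      have := mul_le_mul_of_nonneg_right (tent_le hR hL hu0.le) (sq_nonneg (Dl κ u))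
      linarith
    refine h2.trans (le_of_eq ?_)
    rw [integral_const_mul]
    rfl

theorem t_TK : S_TK := by
  intro hRH hL2 R hR
  obtain ⟨C, hC, hSS⟩ := SS_bdd hRH hL2 (a1 := 1) (a2 := 1) one_pos le_rfl (lam := 1) one_pos
  set B : ℝ := R * Real.exp (2 * R) with hB
  have hB0 : 0 < B := by positivity
  set nn : ℝ → ℝ := fun T => T / Real.log T ^ 2 * (kT T * LL (kT T) ^ 2) with hnn
  have hlim : Tendsto (fun T : ℝ => nn T * (B * C) * (1 / T) + B * C * |nn T - 1|) atTop (𝓝 0) := by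
    have h1 : Tendsto (fun T : ℝ => nn T * (B * C) * (1 / T)) atTop (𝓝 (1 * (B * C) * 0)) := by
      refine (norm_lim.mul_const (B * C)).mul ?_
      exact tendsto_const_nhds.div_atTop tendsto_id
    have h2 : Tendsto (fun T : ℝ => B * C * |nn T - 1|) atTop (𝓝 (B * C * |(1 : ℝ) - 1|)) :=
      ((norm_lim.sub_const 1).abs).const_mul _
    have h3 := h1.add h2
    rw [mul_zero, sub_self, abs_zero, mul_zero, add_zero] at h3
    exact h3
  refine squeeze_zero_norm' ?_ hlim
  filter_upwards [eventually_ge_atTop (3 : ℝ), kT_tendsto.eventually hSS] with T hT k1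
  have hTp : 0 < T := by linarith
  have hl := (Lg_log hT).2
  have hlp : 0 < Real.log T := by linarith
  have hκ := kT_pos hTp
  obtain ⟨l1, l2⟩ := LL_kT (T := T) (by linarith)
  have hLp : 0 < LL (kT T) := by linarith
  have hQ : 0 < kT T * LL (kT T) ^ 2 := by positivity
  have m2 := k1 1 ⟨le_rfl, le_rfl⟩
  rw [one_mul] at m2
  obtain ⟨s1, s2, s3, s4⟩ := two_scales hL2 hR hκ hlp l1
  rw [← hB] at s2 s4
  have hr : LL (kT T) / Real.log T - 1 ≤ 1 / T := by
    rw [sub_le_iff_le_add, div_le_iff₀ hlp]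
    have : 0 ≤ 1 / T := by positivity
    nlinarith
  have hr0 : 0 ≤ LL (kT T) / Real.log T - 1 := by rw [sub_nonneg, le_div_iff₀ hlp]; linarith
  have hS0 := SS_nonneg (kT T) (1 / LL (kT T))
  set W1 : ℝ := ∫ u in Ioi (0 : ℝ), max 0 (R - u / Real.log T) * Dl (kT T) u ^ 2 with hW1
  set Q : ℝ := kT T * LL (kT T) ^ 2 with hQd
  have hnnT : nn T = T / Real.log T ^ 2 * Q := rfl
  have hc0 : 0 < T / Real.log T ^ 2 := by positivity
  rw [WT_eq hR (by linarith : 1 < T), ← hW1]
  have e1 : T / Real.log T ^ 2 * W1 - WV R (kT T) / Q =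
      -(T / Real.log T ^ 2 * (WV R (kT T) - W1)) + WV R (kT T) / Q * (nn T - 1) := by
    rw [hnnT]; field_simp; ring
  rw [e1, Real.norm_eq_abs]
  refine (abs_add_le _ _).trans ?_
  rw [abs_neg, abs_of_nonneg (mul_nonneg hc0.le s1), abs_mul, abs_of_nonneg (div_nonneg s3 hQ.le)]
  have b1 : WV R (kT T) - W1 ≤ B * (1 / T) * (C * Q) := by
    refine s2.trans ?_
    have h1 : B * (LL (kT T) / Real.log T - 1) ≤ B * (1 / T) := mul_le_mul_of_nonneg_left hr hB0.le
    exact mul_le_mul h1 m2 hS0 (by positivity)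
  have b2 : WV R (kT T) / Q ≤ B * C := by
    rw [div_le_iff₀ hQ]
    have := mul_le_mul_of_nonneg_left m2 hB0.le
    linarith
  refine add_le_add ?_ (mul_le_mul_of_nonneg_right b2 (abs_nonneg _))
  calc T / Real.log T ^ 2 * (WV R (kT T) - W1) ≤ T / Real.log T ^ 2 * (B * (1 / T) * (C * Q)) :=
        mul_le_mul_of_nonneg_left b1 hc0.le
    _ = nn T * (B * C) * (1 / T) := by rw [hnnT]; ring

end Pool.Agent.Q252.AH
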