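import Pool.Agent.Q260.AH.Db

set_option autoImplicit false

/-!
# Project AH, job WP: from the weights to the density
-/

namespace Pool.Agent.Q252.AH

open MeasureTheory Filter Topology Set
open Pool.Agent.Q260.AH
open Pool.Agent.Q260.GM (gd LL kk Dl L2psi SS ev_pos ev_L gd_integrable ev_gen kk_le kk_cont kk_nonneg
  Dl_sq_int T1b SS_bdd)
open Pool.Agent.Q213.GM (Dl_meas)

/-- the weight of the tent is close to the combination of exponentials -/
lemma WV_close (hL2 : L2psi) {R ε κ : ℝ} {N : ℕ} {c : ℕ → ℝ} (hκ : 0 < κ) (hL : 0 < LL κ)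
    (hA : Apx R ε N c) :
    |(∑ k ∈ Finset.range N, c k * SS κ ((k + 1) / LL κ)) - WV R κ| ≤ ε * SS κ (1 / LL κ) := by
  have hi : ∀ k : ℕ, IntegrableOn (fun u => Dl κ u ^ 2 * Real.exp (-(2 * (((k : ℝ) + 1) / LL κ) * u))) (Ioi 0) :=
    fun k => Dl_sq_int hL2 hκ (by positivity)
  have h1 : IntegrableOn (fun u => Dl κ u ^ 2 * Real.exp (-(2 * (1 / LL κ) * u))) (Ioi 0) :=
    Dl_sq_int hL2 hκ (by positivity)
  obtain ⟨e, he⟩ : ∃ e : ℝ → ℝ, e = fun u => (∑ k ∈ Finset.range N, c k * Real.exp (-(2 * (k + 1) * (u / LL κ)))) -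
    max 0 (R - u / LL κ) := ⟨_, rfl⟩
  have he1 : ∀ u ∈ Ioi (0 : ℝ), |e u * Dl κ u ^ 2| ≤ ε * (Dl κ u ^ 2 * Real.exp (-(2 * (1 / LL κ) * u))) := by
    intro u hu
    have hu0 : 0 < u := hu
    have h2 := hA (u / LL κ) (div_nonneg hu0.le hL.le)
    rw [abs_mul, abs_of_nonneg (sq_nonneg (Dl κ u)), he]
    have h3 := mul_le_mul_of_nonneg_right h2 (sq_nonneg (Dl κ u))
    refine h3.trans (le_of_eq ?_)
    have e4 : (-(2 * (u / LL κ))) = -(2 * (1 / LL κ) * u) := by ring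
    rw [e4]; ring
  have hem : Measurable e := by
    rw [he]
    refine Measurable.sub ?_ (by fun_prop)
    exact Finset.measurable_fun_sum _ fun k _ => by fun_prop
  have hei : IntegrableOn (fun u => e u * Dl κ u ^ 2) (Ioi 0) := by
    refine (h1.const_mul ε).mono' (hem.mul ((Dl_meas κ).pow_const 2)).aestronglyMeasurable ?_
    exact ae_restrict_of_forall_mem measurableSet_Ioi fun u hu => by
      rw [Real.norm_eq_abs]; exact he1 u hu
  have hsum : IntegrableOn (fun u => ∑ k ∈ Finset.range N,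
      c k * (Dl κ u ^ 2 * Real.exp (-(2 * (((k : ℝ) + 1) / LL κ) * u)))) (Ioi 0) :=
    integrable_finsetSum _ fun k _ => (hi k).const_mul _
  have e2 : (∑ k ∈ Finset.range N, c k * SS κ ((k + 1) / LL κ)) - WV R κ =
      ∫ u in Ioi (0 : ℝ), e u * Dl κ u ^ 2 := by
    have e3 : WV R κ = ∫ u in Ioi (0 : ℝ), ((∑ k ∈ Finset.range N,
        c k * (Dl κ u ^ 2 * Real.exp (-(2 * (((k : ℝ) + 1) / LL κ) * u)))) - e u * Dl κ u ^ 2) := by
      unfold WV
      refine integral_congr_ae (ae_of_all _ fun u => ?_)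
      simp only
      rw [he]
      simp only
      have e5 : ∑ k ∈ Finset.range N, c k * (Dl κ u ^ 2 * Real.exp (-(2 * (((k : ℝ) + 1) / LL κ) * u))) =
          (∑ k ∈ Finset.range N, c k * Real.exp (-(2 * (k + 1) * (u / LL κ)))) * Dl κ u ^ 2 := by
        rw [Finset.sum_mul]
        refine Finset.sum_congr rfl fun k _ => ?_
        have e6 : (-(2 * (((k : ℝ) + 1) / LL κ) * u)) = -(2 * ((k : ℝ) + 1) * (u / LL κ)) := by ring
        rw [e6]; ring
      rw [e5]; ring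
    rw [e3, integral_sub hsum hei, integral_finsetSum _ fun k _ => (hi k).const_mul _]
    simp only [integral_const_mul]
    unfold SS
    ring
  rw [e2]
  calc |∫ u in Ioi (0 : ℝ), e u * Dl κ u ^ 2| ≤ ∫ u in Ioi (0 : ℝ), |e u * Dl κ u ^ 2| :=
        abs_integral_le_integral_abs
    _ ≤ ∫ u in Ioi (0 : ℝ), ε * (Dl κ u ^ 2 * Real.exp (-(2 * (1 / LL κ) * u))) :=
        setIntegral_mono_on hei.abs (h1.const_mul ε) measurableSet_Ioi he1
    _ = ε * SS κ (1 / LL κ) := by rw [integral_const_mul]; rfl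

theorem t_WP : S_WP := by
  intro hRH hL2
  obtain ⟨C, hC, hSS⟩ := SS_bdd hRH hL2 (a1 := 1) (a2 := 1) one_pos le_rfl (lam := 1) one_pos
  refine ⟨C, hC, fun R ε δ N c hR hε hδ hA => ?_⟩
  set D : ℝ := 1 + ∑ k ∈ Finset.range N, |c k| with hD
  have hD0 : 0 < D := by
    have : 0 ≤ ∑ k ∈ Finset.range N, |c k| := Finset.sum_nonneg fun k _ => abs_nonneg _
    linarith
  have hN1 : (1 : ℝ) ≤ (N : ℝ) + 1 := by
    have : (0 : ℝ) ≤ N := Nat.cast_nonneg N
    linarith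
  obtain ⟨C', hC', hgen⟩ := ev_gen hRH (a1 := 1) (a2 := (N : ℝ) + 1) one_pos hN1
  filter_upwards [hSS, hgen, T1b hRH hL2 (a1 := 1) (a2 := (N : ℝ) + 1) one_pos hN1 (lam := 1) one_pos
    (ε := δ / D) (by positivity)] with κ k1 k2 k3
  obtain ⟨hκ, hκ1, hL1, hg⟩ := k2
  have hLp : 0 < LL κ := by linarith
  have hQ : 0 < κ * LL κ ^ 2 := by positivity
  have m1 := WV_close hL2 hκ hLp hA
  have m2 := k1 1 ⟨le_rfl, le_rfl⟩
  rw [one_mul] at m2
  have hmem : ∀ k ∈ Finset.range N, ((k : ℝ) + 1) ∈ Icc (1 : ℝ) ((N : ℝ) + 1) := by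
    intro k hk
    rw [Finset.mem_range] at hk
    have h1 : (0 : ℝ) ≤ k := Nat.cast_nonneg k
    have h2 : (k : ℝ) ≤ N := by exact_mod_cast hk.le
    constructor <;> linarith
  have hint : ∀ k ∈ Finset.range N, Integrable (fun y => kk 1 y * gd κ (k + 1) y) := by
    intro k hk
    obtain ⟨g1, g2, -, -⟩ := hg _ (hmem k hk)
    exact gd_integrable (kk_cont 1) g1 (fun y => by
      rw [abs_of_nonneg (kk_nonneg 1 y)]; exact kk_le 1 y) g2
  have e1 : ∫ y in Ioi (0 : ℝ), kk 1 y * gc N c κ y =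
      ∑ k ∈ Finset.range N, c k * ∫ y in Ioi (0 : ℝ), kk 1 y * gd κ (k + 1) y := by
    have e2 : ∀ y : ℝ, kk 1 y * gc N c κ y = ∑ k ∈ Finset.range N, c k * (kk 1 y * gd κ (k + 1) y) := by
      intro y
      unfold gc
      rw [Finset.mul_sum]
      refine Finset.sum_congr rfl fun k _ => by ring
    simp_rw [e2]
    rw [integral_finsetSum _ fun k hk => ((hint k hk).integrableOn).const_mul _]
    simp only [integral_const_mul]
  have m3 : |(∑ k ∈ Finset.range N, c k * SS κ ((k + 1) / LL κ)) -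
      2 / Real.pi * (κ * LL κ ^ 2 * ∫ y in Ioi (0 : ℝ), kk 1 y * gc N c κ y)| ≤ δ * (κ * LL κ ^ 2) := by
    rw [e1]
    have e3 : (∑ k ∈ Finset.range N, c k * SS κ ((k + 1) / LL κ)) -
        2 / Real.pi * (κ * LL κ ^ 2 * ∑ k ∈ Finset.range N, c k * ∫ y in Ioi (0 : ℝ), kk 1 y * gd κ (k + 1) y) =
        ∑ k ∈ Finset.range N, c k * (SS κ ((k + 1) / LL κ) -
          2 / Real.pi * (κ * LL κ ^ 2 * ∫ y in Ioi (0 : ℝ), kk 1 y * gd κ (k + 1) y)) := by
      rw [Finset.mul_sum, Finset.mul_sum, ← Finset.sum_sub_distrib]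
      refine Finset.sum_congr rfl fun k _ => by ring
    rw [e3]
    refine (Finset.abs_sum_le_sum_abs _ _).trans ?_
    have h4 : ∀ k ∈ Finset.range N, |c k * (SS κ ((k + 1) / LL κ) -
        2 / Real.pi * (κ * LL κ ^ 2 * ∫ y in Ioi (0 : ℝ), kk 1 y * gd κ (k + 1) y))| ≤
        |c k| * (δ / D * (κ * LL κ ^ 2)) := by
      intro k hk
      rw [abs_mul]
      refine mul_le_mul_of_nonneg_left ?_ (abs_nonneg _)
      have := k3 _ (hmem k hk)
      rwa [one_mul] at this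
    refine (Finset.sum_le_sum h4).trans ?_
    rw [← Finset.sum_mul]
    have h5 : ∑ k ∈ Finset.range N, |c k| ≤ D := by linarith
    calc (∑ k ∈ Finset.range N, |c k|) * (δ / D * (κ * LL κ ^ 2)) ≤ D * (δ / D * (κ * LL κ ^ 2)) :=
          mul_le_mul_of_nonneg_right h5 (by positivity)
      _ = δ * (κ * LL κ ^ 2) := by field_simp
  have m4 : ε * SS κ (1 / LL κ) ≤ ε * (C * (κ * LL κ ^ 2)) := mul_le_mul_of_nonneg_left m2 hε.le
  rw [abs_le] at m1 m3 ⊢
  constructor <;> nlinarith [m1.1, m1.2, m3.1, m3.2]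

end Pool.Agent.Q252.AH
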